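import Pool.Agent.W2helper61.Cheat.Sem2
import Pool.Agent.W2helper61.Cheat.AlgPF
import Pool.Agent.W2helper61.Bridge

/-!
# Self-reducible `(2^k - 1 for k)` p-cheatable sets are in P

Languages are sets of bit strings. A deterministic oracle machine is given by its next-move
function: on an input and the list of the answers received so far it asks a query or halts with an
output; this function is computable in polynomial time (by a multi-stack Turing machine of
Mathlib).

We prove, for every `k ≥ 2`, that every self-reducible set which is `(2^k - 1 for k)` p-cheatable
is in P.

Idea of the proof. For a finite set `W` of strings let `F(W)` be the set of all 0-1 assignments of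
`W` which are consistent with the cheating machine on all tuples of length `N = 2^k - 1` of elements
of `W`. On `N` strings at most `N + 1` patterns occur, hence if `F(W)` has more than `N + 1`
elements then no two strings of `W` are independent (all four patterns occur), and `F(W)` has at
most `|W| + N + 1` elements. So `F(W)` can be listed in polynomial time. If there were `N + 2`
strings `a_i` in `W` and assignments `g_i` in `F(W)` such that `g_i` differs from a fixed assignment
on the `a_j` exactly at `a_i`, then on any `N` of the `a_i` the `N + 1` patterns would have to be
split evenly by the first query of the cheating machine; the sets of size `2^(k-1)` which are split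
off are pairwise equal or disjoint, and a choice of `N` of the `a_i` which contains none of them
gives a contradiction. It follows that whenever (in `F(W)`) the value at `x` is determined by a set
`Q` of strings, it is determined by at most `2^k` strings of `Q`. Now start with `S = {x}`. If the
value at `x` is determined by the set `S`, run the self-reduction on the elements of `S` with
answers given by assignments that are compatible with both values at `x`. These assignments agree on
the queries (or there are only a few assignments altogether), so after polynomially many rounds the
value at `x` is determined by the queries asked, and hence by at most `2^k` of them, which are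
shorter than the longest element of `S`. After `|x| + 1` such steps the set is empty and the value
at `x` is known.
-/

set_option autoImplicit false

namespace Pool.Agent.Results.MP_4eb50a_lc.SelfReducibleCheatable

/-- A function on bit strings is computable in polynomial time. -/
def PolyTime (f : List Bool → List Bool) : Prop :=
  Nonempty (Turing.TM2ComputableInPolyTime (id : List Bool → List Bool)
    (id : List Bool → List Bool) f)

/-- The code of a pair of bit strings: every bit of the first string is preceded by a `true`, and
the second string is preceded by a `false`. -/
def pair (x y : List Bool) : List Bool := x.flatMap (fun b => [true, b]) ++ false :: y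

/-- The code of a tuple of bit strings. -/
def tuple {n : ℕ} (w : Fin n → List Bool) : List Bool := (List.ofFn w).foldr pair []

open Classical in
/-- The characteristic function of `A`. -/
noncomputable def chi (A : Set (List Bool)) (w : List Bool) : Bool := decide (w ∈ A)

/-- A move of an oracle machine: it asks the oracle whether a string is a member, or it halts with
an output. -/
inductive Move
  | query (q : List Bool) : Move
  | output (o : List Bool) : Move

/-- The code of a move. -/
def Move.code : Move → List Bool
  | .query q => false :: q
  | .output o => true :: o

/-- A deterministic oracle machine, given by its next-move function: `next x ans` is its next move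
on the input `x` when `ans` is the list of the answers to its queries so far. The next move is
computed in polynomial time. -/
structure OracleMachine where
  /-- the next move -/
  next : List Bool → List Bool → Move
  /-- the next move is computed in polynomial time -/
  poly : ∃ f : List Bool → List Bool, PolyTime f ∧ ∀ x ans, f (pair x ans) = (next x ans).code

/-- With the oracle `A` and the input `x`, the answers to the first `ans.length` queries of `M` are
given by the list `ans`. -/
def OracleMachine.Answers (M : OracleMachine) (A : Set (List Bool)) (x ans : List Bool) : Prop :=
  ∀ (i : ℕ) (h : i < ans.length), ∃ q, M.next x (ans.take i) = .query q ∧ ans[i] = chi A q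

/-- With the oracle `A` and the input `x` the machine `M` asks the query `q`. -/
def OracleMachine.Asks (M : OracleMachine) (A : Set (List Bool)) (x q : List Bool) : Prop :=
  ∃ ans, M.Answers A x ans ∧ M.next x ans = .query q

/-- With the oracle `A` and the input `x` the machine `M` halts with the output `o` after at most
`m` queries. -/
def OracleMachine.Outputs (M : OracleMachine) (A : Set (List Bool)) (x : List Bool) (m : ℕ)
    (o : List Bool) : Prop :=
  ∃ ans, M.Answers A x ans ∧ ans.length ≤ m ∧ M.next x ans = .output o

/-- `A` is `(n for k)` p-cheatable: some oracle machine with the oracle `A` computes, for any `n`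
strings, their memberships in `A` with at most `k` queries. -/
def Cheatable (n k : ℕ) (A : Set (List Bool)) : Prop :=
  ∃ M : OracleMachine, ∀ w : Fin n → List Bool,
    M.Outputs A (tuple w) k (List.ofFn fun i => chi A (w i))

/-- `A` is (Turing) self-reducible: some oracle machine with the oracle `A` decides `A` with
polynomially many queries, all of which are shorter than the input. -/
def SelfReducible (A : Set (List Bool)) : Prop :=
  ∃ (M : OracleMachine) (p : Polynomial ℕ), ∀ x : List Bool,
    M.Outputs A x (p.eval x.length) [chi A x] ∧ ∀ q, M.Asks A x q → q.length < x.length

/-- `A` is decided by a deterministic machine in polynomial time. -/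
def InP (A : Set (List Bool)) : Prop :=
  Nonempty (Turing.TM2ComputableInPolyTime (id : List Bool → List Bool) (fun b : Bool => [b])
    (chi A))

open Pool.Agent.W2helper61 Pool.Agent.W2helper61.Cheat Pool.Agent.H583R2

theorem isRun_iff {M : OracleMachine} {F : List Bool → List Bool}
    (hF : ∀ x ans, F (pair x ans) = (M.next x ans).code) (A : Set (List Bool))
    (x ans : List Bool) : IsRun F (chi A) x ans ↔ M.Answers A x ans := by
  constructor
  · intro h i hi
    obtain ⟨q, h1, h2⟩ := h i ans[i] (List.getElem?_eq_getElem hi)
    have e : F (pair x (ans.take i)) = (M.next x (ans.take i)).code := hF x _
    have h1' : F (pair x (ans.take i)) = false :: q := h1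
    rw [e] at h1'
    refine ⟨q, ?_, h2.symm⟩
    cases hm : M.next x (ans.take i) with
    | query q' =>
      rw [hm] at h1'
      simp only [Move.code, List.cons.injEq, true_and] at h1'
      rw [h1']
    | output o =>
      rw [hm] at h1'
      simp [Move.code] at h1'
  · intro h j b hj
    have hlt : j < ans.length := by
      by_contra hcon
      rw [List.getElem?_eq_none (by omega)] at hj
      simp at hj
    obtain ⟨q, h1, h2⟩ := h j hlt
    rw [List.getElem?_eq_getElem hlt, Option.some.injEq] at hj
    refine ⟨q, ?_, by rw [← h2, hj]⟩
    have e : F (pair x (ans.take j)) = (M.next x (ans.take j)).code := hF x _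
    change F (pair x (ans.take j)) = false :: q
    rw [e, h1]
    rfl

/-- For every `k ≥ 2`, every self-reducible set which is `(2^k - 1 for k)` p-cheatable is in P. -/
theorem result (k : ℕ) (hk : 2 ≤ k) (A : Set (List Bool)) (hs : SelfReducible A)
    (hc : Cheatable (2 ^ k - 1) k A) : InP A := by
  obtain ⟨M1, h1⟩ := hc
  obtain ⟨M2, p, h2⟩ := hs
  obtain ⟨F1, ⟨T1⟩, e1⟩ := M1.poly
  obtain ⟨F2, ⟨T2⟩, e2⟩ := M2.poly
  obtain ⟨c, hcp⟩ := poly_le_pow p
  have hR : PF (fun x : List Bool => (x.length + 2) ^ c + 1) :=
    PF.succ (pf_powN (PF.add (PF.length PF.id) (PF.const 2)) c)
  have hpf := pf_algA (pf_of_tm T1) (pf_of_tm T2) k hR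
  have hA : ∀ x, algA F1 F2 k ((x.length + 2) ^ c + 1) x = chi A x := by
    intro x
    refine algA_spec hk ?_ ?_ ?_
    · intro t ht
      obtain ⟨ans, g1, g2, g3⟩ := h1 (fun i => t.get (i.cast ht.symm))
      have et : List.ofFn (fun i : Fin (2 ^ k - 1) => t.get (i.cast ht.symm)) = t := by
        apply List.ext_getElem
        · simp [ht]
        · intro i h3 h4
          simp
      have et' : tuple (fun i : Fin (2 ^ k - 1) => t.get (i.cast ht.symm)) = tupS t := by
        unfold tuple
        rw [et]
        rfl
      rw [et'] at g1 g3
      refine ⟨ans, (isRun_iff e1 A _ _).2 g1, g2, ?_⟩
      have e : F1 (pair (tupS t) ans) = (M1.next (tupS t) ans).code := e1 _ _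
      change F1 (pair (tupS t) ans) = _
      rw [e, g3]
      change true :: _ = true :: _
      congr 1
      apply List.ext_getElem
      · simp [ht]
      · intro i h3 h4
        simp
    · intro s hsx
      obtain ⟨ans, g1, g2, g3⟩ := (h2 s).1
      refine ⟨ans, (isRun_iff e2 A _ _).2 g1, ?_, ?_⟩
      · have h3 := hcp s.length
        have h4 : (s.length + 2) ^ c ≤ (x.length + 2) ^ c := Nat.pow_le_pow_left (by omega) _
        omega
      · have e : F2 (pair s ans) = (M2.next s ans).code := e2 _ _
        change F2 (pair s ans) = _
        rw [e, g3]
        rfl
    · intro s ans q hr hq
      refine (h2 s).2 q ⟨ans, (isRun_iff e2 A _ _).1 hr, ?_⟩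
      have e : F2 (pair s ans) = (M2.next s ans).code := e2 _ _
      have hq' : F2 (pair s ans) = false :: q := hq
      rw [e] at hq'
      cases hm : M2.next s ans with
      | query q' =>
        rw [hm] at hq'
        simp only [Move.code, List.cons.injEq, true_and] at hq'
        rw [hq']
      | output o =>
        rw [hm] at hq'
        simp [Move.code] at hq'
  refine tm_of_pf (fun b : Bool => [b]) ?_
  exact (PF.cons hpf (PF.const [])).congr (fun x => by rw [hA x])

end Pool.Agent.Results.MP_4eb50a_lc.SelfReducibleCheatable
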